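import Mathlib

set_option autoImplicit false

/-!
# Integers `n` for which every `n - 2 ^ k` is squarefree

There are infinitely many of them; more precisely there are at least `N ^ (1 - ε)` of them up to
`N`, for every `ε > 0` and all large `N`.

Proof.  Let `y` be a small multiple of `log N` and let `M` be the product of the primes `≤ y`; then
`M ≤ 4 ^ y` is a small power of `N`.  Consider the odd multiples `n = M / 2 + M t` of `M / 2`.
If `3 ≤ p ≤ y`, then `p ∣ n` and so `p ∤ n - 2 ^ k`.  For `p > y` and given `k` the number of `t` in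
an interval of length `T = N / M` with `p ^ 2 ∣ n - 2 ^ k` is at most `T / p ^ 2 + 1`, and as there
are only `log N / log 2 = O (y)` values of `k` and `∑_{p > y} 1 / p ^ 2 = o (1 / y)` (primes have
density zero), few `t` are bad.
-/

open Filter Topology Finset

namespace Pool.Agent.Results.MP_fcd74d_nt.PowersOfTwo

/-- `n` is good: `n - 2 ^ k` is squarefree for every `k ≥ 1` with `2 ^ k < n`. -/
def Good (n : ℕ) : Prop := ∀ k : ℕ, 1 ≤ k → 2 ^ k < n → Squarefree (n - 2 ^ k)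

/-- primes have density zero -/
lemma pi_small {η : ℝ} (hη : 0 < η) : ∃ y₀ : ℕ, 1 ≤ y₀ ∧ ∀ x : ℕ, y₀ ≤ x →
    (Nat.primeCounting x : ℝ) ≤ η * x := by
  have h1 := Chebyshev.eventually_primeCounting_le (ε := 1) one_pos
  have h2 : ∀ᶠ x : ℝ in atTop, (Real.log 4 + 1) / η ≤ Real.log x :=
    Real.tendsto_log_atTop.eventually_ge_atTop _
  obtain ⟨X, hX⟩ := eventually_atTop.1 (h1.and (h2.and (eventually_gt_atTop (1 : ℝ))))
  refine ⟨⌈X⌉₊ + 1, by omega, fun x hx => ?_⟩
  have hxX : X ≤ (x : ℝ) := by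
    have : (⌈X⌉₊ : ℝ) ≤ x := by exact_mod_cast (by omega : ⌈X⌉₊ ≤ x)
    exact (Nat.le_ceil X).trans this
  obtain ⟨a1, a2, a3⟩ := hX x hxX
  rw [Nat.floor_natCast] at a1
  refine a1.trans ?_
  have hlog : 0 < Real.log x := Real.log_pos a3
  rw [div_le_iff₀ hlog]
  rw [div_le_iff₀ hη] at a2
  have hx0 : (0 : ℝ) ≤ x := by positivity
  nlinarith

/-- one dyadic block -/
lemma block {η : ℝ} {y₀ : ℕ} (h1 : 1 ≤ y₀)
    (hy : ∀ x : ℕ, y₀ ≤ x → (Nat.primeCounting x : ℝ) ≤ η * x) (Y : ℕ) (hY : y₀ ≤ Y) :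
    ∑ p ∈ (Finset.Ioc Y (2 * Y)).filter Nat.Prime, (1 : ℝ) / (p : ℝ) ^ 2 ≤ 2 * η / Y := by
  have hY0 : (0 : ℝ) < Y := by exact_mod_cast (by omega : 0 < Y)
  have hterm : ∀ p ∈ (Finset.Ioc Y (2 * Y)).filter Nat.Prime,
      (1 : ℝ) / (p : ℝ) ^ 2 ≤ 1 / (Y : ℝ) ^ 2 := by
    intro p hp
    rw [Finset.mem_filter, Finset.mem_Ioc] at hp
    have : (Y : ℝ) ≤ p := by exact_mod_cast hp.1.1.le
    gcongr
  have hcard : (((Finset.Ioc Y (2 * Y)).filter Nat.Prime).card : ℝ) ≤
      Nat.primeCounting (2 * Y) := by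
    have : ((Finset.Ioc Y (2 * Y)).filter Nat.Prime).card ≤ Nat.primeCounting (2 * Y) := by
      rw [Nat.primeCounting, Nat.primeCounting', Nat.count_eq_card_filter_range]
      apply Finset.card_le_card
      intro p hp
      rw [Finset.mem_filter, Finset.mem_Ioc] at hp
      rw [Finset.mem_filter, Finset.mem_range]
      exact ⟨by omega, hp.2⟩
    exact_mod_cast this
  calc ∑ p ∈ (Finset.Ioc Y (2 * Y)).filter Nat.Prime, (1 : ℝ) / (p : ℝ) ^ 2
      ≤ ∑ _p ∈ (Finset.Ioc Y (2 * Y)).filter Nat.Prime, 1 / (Y : ℝ) ^ 2 :=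
        Finset.sum_le_sum hterm
    _ = ((Finset.Ioc Y (2 * Y)).filter Nat.Prime).card * (1 / (Y : ℝ) ^ 2) := by
        rw [Finset.sum_const, nsmul_eq_mul]
    _ ≤ (η * ((2 * Y : ℕ) : ℝ)) * (1 / (Y : ℝ) ^ 2) := by
        gcongr
        exact hcard.trans (hy _ (by omega))
    _ = 2 * η / Y := by
        push_cast
        field_simp

/-- the tail of `∑ 1 / p²` over primes -/
lemma tail {η : ℝ} (hη : 0 < η) : ∃ y₀ : ℕ, 1 ≤ y₀ ∧ ∀ y : ℕ, y₀ ≤ y → ∀ X : ℕ,
    ∑ p ∈ (Finset.Ioc y X).filter Nat.Prime, (1 : ℝ) / (p : ℝ) ^ 2 ≤ η / y := by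
  obtain ⟨y₀, h1, hy⟩ := pi_small (η := η / 4) (by positivity)
  refine ⟨y₀, h1, fun y hyy X => ?_⟩
  have hy0 : (0 : ℝ) < y := by exact_mod_cast (by omega : 0 < y)
  have key : ∀ J : ℕ, ∑ p ∈ (Finset.Ioc y (2 ^ J * y)).filter Nat.Prime, (1 : ℝ) / (p : ℝ) ^ 2 ≤
      η / y * (1 - 1 / 2 ^ J) := by
    intro J
    induction J with
    | zero => simp
    | succ J ih =>
      have hsplit : (Finset.Ioc y (2 ^ (J + 1) * y)).filter Nat.Prime ⊆
          (Finset.Ioc y (2 ^ J * y)).filter Nat.Prime ∪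
            (Finset.Ioc (2 ^ J * y) (2 * (2 ^ J * y))).filter Nat.Prime := by
        intro p hp
        rw [Finset.mem_filter, Finset.mem_Ioc] at hp
        rw [Finset.mem_union, Finset.mem_filter, Finset.mem_filter, Finset.mem_Ioc,
          Finset.mem_Ioc]
        obtain ⟨⟨a, b⟩, c⟩ := hp
        rw [pow_succ] at b
        by_cases h : p ≤ 2 ^ J * y
        · exact Or.inl ⟨⟨a, h⟩, c⟩
        · exact Or.inr ⟨⟨by omega, by nlinarith⟩, c⟩
      have hb := block h1 hy (2 ^ J * y) (by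
        have : 1 ≤ 2 ^ J := Nat.one_le_two_pow
        nlinarith)
      calc ∑ p ∈ (Finset.Ioc y (2 ^ (J + 1) * y)).filter Nat.Prime, (1 : ℝ) / (p : ℝ) ^ 2
          ≤ ∑ p ∈ (Finset.Ioc y (2 ^ J * y)).filter Nat.Prime ∪
            (Finset.Ioc (2 ^ J * y) (2 * (2 ^ J * y))).filter Nat.Prime, (1 : ℝ) / (p : ℝ) ^ 2 :=
            Finset.sum_le_sum_of_subset_of_nonneg hsplit (fun _ _ _ => by positivity)
        _ ≤ ∑ p ∈ (Finset.Ioc y (2 ^ J * y)).filter Nat.Prime, (1 : ℝ) / (p : ℝ) ^ 2 +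
            ∑ p ∈ (Finset.Ioc (2 ^ J * y) (2 * (2 ^ J * y))).filter Nat.Prime,
              (1 : ℝ) / (p : ℝ) ^ 2 :=
            by
              rw [← Finset.sum_union_inter]
              exact le_add_of_nonneg_right (Finset.sum_nonneg fun _ _ => by positivity)
        _ ≤ η / y * (1 - 1 / 2 ^ J) + 2 * (η / 4) / ((2 ^ J * y : ℕ) : ℝ) := add_le_add ih hb
        _ = η / y * (1 - 1 / 2 ^ (J + 1)) := by
            push_cast
            field_simp
            ring
  obtain ⟨J, hJ⟩ : ∃ J : ℕ, X ≤ 2 ^ J * y := by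
    refine ⟨X, ?_⟩
    have : X < 2 ^ X := Nat.lt_two_pow_self
    nlinarith
  calc ∑ p ∈ (Finset.Ioc y X).filter Nat.Prime, (1 : ℝ) / (p : ℝ) ^ 2
      ≤ ∑ p ∈ (Finset.Ioc y (2 ^ J * y)).filter Nat.Prime, (1 : ℝ) / (p : ℝ) ^ 2 := by
        apply Finset.sum_le_sum_of_subset_of_nonneg
        · intro p hp
          rw [Finset.mem_filter, Finset.mem_Ioc] at hp ⊢
          exact ⟨⟨hp.1.1, by omega⟩, hp.2⟩
        · intro _ _ _; positivity
    _ ≤ η / y * (1 - 1 / 2 ^ J) := key J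
    _ ≤ η / y * 1 := by
        gcongr
        have : (0 : ℝ) ≤ 1 / 2 ^ J := by positivity
        linarith
    _ = η / y := mul_one _

/-- number of solutions of a linear congruence in an interval -/
lemma count_ap {M a m T : ℕ} (hm : 0 < m) (hcop : Nat.Coprime M m) (b : ℕ) :
    (((Finset.range T).filter fun t => M * t + a ≡ b [MOD m]).card : ℝ) ≤ T / m + 1 := by
  classical
  have hm' : (0 : ℝ) < m := by exact_mod_cast hm
  by_cases hne : ((Finset.range T).filter fun t => M * t + a ≡ b [MOD m]).Nonempty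
  · obtain ⟨t₀, ht₀⟩ := hne
    rw [Finset.mem_filter] at ht₀
    have hsub : (Finset.range T).filter (fun t => M * t + a ≡ b [MOD m]) ⊆
        (Finset.range T).filter (fun t => t ≡ t₀ [MOD m]) := by
      intro t ht
      rw [Finset.mem_filter] at ht ⊢
      refine ⟨ht.1, ?_⟩
      have h1 : M * t + a ≡ M * t₀ + a [MOD m] := ht.2.trans ht₀.2.symm
      have h2 : M * t ≡ M * t₀ [MOD m] := Nat.ModEq.add_right_cancel' a h1
      exact Nat.ModEq.cancel_left_of_coprime (by rwa [Nat.coprime_comm] at hcop) h2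
    have h3 : ((Finset.range T).filter (fun t => t ≡ t₀ [MOD m])).card ≤ T / m + 1 := by
      have h4 := Nat.count_modEq_card T hm t₀
      rw [Nat.count_eq_card_filter_range] at h4
      rw [h4]
      split_ifs <;> omega
    have h5 : (((Finset.range T).filter fun t => M * t + a ≡ b [MOD m]).card : ℝ) ≤
        ((T / m + 1 : ℕ) : ℝ) := by
      exact_mod_cast (Finset.card_le_card hsub).trans h3
    refine h5.trans ?_
    push_cast
    have := Nat.cast_div_le (α := ℝ) (m := T) (n := m)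
    linarith
  · rw [Finset.not_nonempty_iff_eq_empty] at hne
    rw [hne]
    simp only [Finset.card_empty, Nat.cast_zero]
    positivity

/-- the product of the odd primes up to `y` -/
def A (y : ℕ) : ℕ := ∏ p ∈ (Finset.range (y + 1)).filter (fun p => p.Prime ∧ p ≠ 2), p

lemma A_pos (y : ℕ) : 0 < A y := by
  apply Finset.prod_pos
  intro p hp
  rw [Finset.mem_filter] at hp
  exact hp.2.1.pos

lemma A_le (y : ℕ) : A y ≤ 4 ^ y := by
  refine le_trans ?_ (primorial_le_four_pow y)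
  unfold A primorial
  apply Finset.prod_le_prod_of_subset_of_one_le'
  · intro p hp
    rw [Finset.mem_filter] at hp ⊢
    exact ⟨hp.1, hp.2.1⟩
  · intro p hp _
    rw [Finset.mem_filter] at hp
    exact hp.2.one_lt.le

lemma dvd_A {p y : ℕ} (hp : p.Prime) (h2 : p ≠ 2) (hy : p ≤ y) : p ∣ A y := by
  apply Finset.dvd_prod_of_mem (fun p => p)
  rw [Finset.mem_filter, Finset.mem_range]
  exact ⟨by omega, hp, h2⟩

lemma coprime_A {p y : ℕ} (hp : p.Prime) (hy : y < p) : Nat.Coprime (A y) p := by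
  apply Nat.Coprime.prod_left
  intro q hq
  rw [Finset.mem_filter, Finset.mem_range] at hq
  rw [Nat.coprime_primes hq.2.1 hp]
  omega

lemma odd_A (y : ℕ) : Odd (A y) := by
  have h : Nat.Coprime (A y) 2 := by
    apply Nat.Coprime.prod_left
    intro q hq
    rw [Finset.mem_filter, Finset.mem_range] at hq
    rw [Nat.coprime_primes hq.2.1 Nat.prime_two]
    exact hq.2.2
  rwa [Nat.coprime_two_right] at h

/-- if no square of a prime `> y` divides the differences, then `n` is good -/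
lemma good_of {y N t : ℕ} (hN : 2 * A y * t + A y ≤ N)
    (h : ∀ k ∈ Finset.Icc 1 (Nat.log 2 N), ∀ p ∈ (Finset.Ioc y (Nat.sqrt N)).filter Nat.Prime,
      ¬ 2 * A y * t + A y ≡ 2 ^ k [MOD p ^ 2]) : Good (2 * A y * t + A y) := by
  intro k hk1 hk
  set n := 2 * A y * t + A y with hn
  have hodd : Odd n := by
    have h1 : Even (2 * A y * t) := by
      rw [mul_assoc]; exact even_two_mul _
    exact h1.add_odd (odd_A y)
  rw [Nat.squarefree_iff_prime_squarefree]
  intro p hp hdvd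
  have hpd : p ∣ n - 2 ^ k := (Dvd.intro _ rfl).trans hdvd
  have heven : Even (2 ^ k) := (Nat.even_pow.2 ⟨even_two, by omega⟩)
  by_cases h2 : p = 2
  · subst h2
    have h3 : Odd (n - 2 ^ k) := Nat.Odd.sub_even hk.le hodd heven
    rw [← Nat.not_even_iff_odd, even_iff_two_dvd] at h3
    exact h3 hpd
  · by_cases hpy : p ≤ y
    · have h3 : p ∣ A y := dvd_A hp h2 hpy
      have h4 : p ∣ n := by
        rw [hn]
        exact Dvd.dvd.add ((h3.mul_left 2).mul_right t) h3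
      have h5 : p ∣ 2 ^ k := by
        have := Nat.dvd_sub h4 hpd
        rwa [Nat.sub_sub_self hk.le] at this
      have h6 := hp.dvd_of_dvd_pow h5
      exact h2 ((Nat.prime_dvd_prime_iff_eq hp Nat.prime_two).1 h6)
    · push Not at hpy
      have hpos : 0 < n - 2 ^ k := by omega
      have h3 : p * p ≤ N := (Nat.le_of_dvd hpos hdvd).trans ((Nat.sub_le _ _).trans hN)
      have h4 : p ≤ Nat.sqrt N := Nat.le_sqrt.2 h3
      have h5 : k ≤ Nat.log 2 N := by
        apply Nat.le_log_of_pow_le (by norm_num)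
        omega
      refine h k (Finset.mem_Icc.2 ⟨hk1, h5⟩) p
        (Finset.mem_filter.2 ⟨Finset.mem_Ioc.2 ⟨hpy, h4⟩, hp⟩) ?_
      have h6 : 2 ^ k ≡ n [MOD p ^ 2] := by
        rw [Nat.modEq_iff_dvd' hk.le, sq]
        exact hdvd
      exact h6.symm

/-- the counting argument -/
lemma count_good {y N : ℕ} (hy3 : 3 ≤ y) {η : ℝ}
    (htail : ∀ X : ℕ, ∑ p ∈ (Finset.Ioc y X).filter Nat.Prime, (1 : ℝ) / (p : ℝ) ^ 2 ≤ η / y) :
    ((N / (2 * A y) : ℕ) : ℝ) - Nat.log 2 N * ((N / (2 * A y) : ℕ) * (η / y) + Nat.sqrt N) ≤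
      ({n : ℕ | n ≤ N ∧ 3 ≤ n ∧ Good n}.ncard : ℝ) := by
  classical
  set T := N / (2 * A y) with hT
  have hA := A_pos y
  set P := (Finset.Ioc y (Nat.sqrt N)).filter Nat.Prime with hP
  set B : ℕ → ℕ → Finset ℕ := fun k p =>
    (Finset.range T).filter (fun t => 2 * A y * t + A y ≡ 2 ^ k [MOD p ^ 2]) with hB
  set Bad : Finset ℕ := (Finset.Icc 1 (Nat.log 2 N)).biUnion fun k => P.biUnion fun p => B k p
    with hBad
  have hcardB : ∀ k, ∀ p ∈ P, ((B k p).card : ℝ) ≤ T * (1 / (p : ℝ) ^ 2) + 1 := by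
    intro k p hp
    rw [hP, Finset.mem_filter, Finset.mem_Ioc] at hp
    have hcop : Nat.Coprime (2 * A y) (p ^ 2) := by
      apply Nat.Coprime.pow_right
      apply Nat.Coprime.mul_left
      · rw [Nat.coprime_primes Nat.prime_two hp.2]
        omega
      · exact coprime_A hp.2 hp.1.1
    have := count_ap (M := 2 * A y) (a := A y) (m := p ^ 2) (T := T) (pow_pos hp.2.pos 2) hcop
      (2 ^ k)
    refine this.trans (le_of_eq ?_)
    push_cast
    ring
  have hbadcard : (Bad.card : ℝ) ≤ Nat.log 2 N * (T * (η / y) + Nat.sqrt N) := by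
    have h1 : (Bad.card : ℝ) ≤ ∑ k ∈ Finset.Icc 1 (Nat.log 2 N),
        ∑ p ∈ P, ((B k p).card : ℝ) := by
      have h2 : Bad.card ≤ ∑ k ∈ Finset.Icc 1 (Nat.log 2 N), ∑ p ∈ P, (B k p).card := by
        refine Finset.card_biUnion_le.trans ?_
        exact Finset.sum_le_sum fun k _ => Finset.card_biUnion_le
      exact_mod_cast h2
    refine h1.trans ?_
    have h3 : ∀ k ∈ Finset.Icc 1 (Nat.log 2 N), ∑ p ∈ P, ((B k p).card : ℝ) ≤
        T * (η / y) + Nat.sqrt N := by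
      intro k _
      calc ∑ p ∈ P, ((B k p).card : ℝ) ≤ ∑ p ∈ P, ((T : ℝ) * (1 / (p : ℝ) ^ 2) + 1) :=
            Finset.sum_le_sum (hcardB k)
        _ = T * ∑ p ∈ P, (1 / (p : ℝ) ^ 2) + P.card := by
            rw [Finset.sum_add_distrib, ← Finset.mul_sum, Finset.sum_const, nsmul_eq_mul, mul_one]
        _ ≤ T * (η / y) + Nat.sqrt N := by
            have h4 : (P.card : ℝ) ≤ Nat.sqrt N := by
              have h5 : P.card ≤ Nat.sqrt N := by
                refine (Finset.card_filter_le _ _).trans ?_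
                rw [Nat.card_Ioc]
                omega
              exact_mod_cast h5
            have h6 := htail (Nat.sqrt N)
            have h7 : (T : ℝ) * ∑ p ∈ P, (1 / (p : ℝ) ^ 2) ≤ T * (η / y) :=
              mul_le_mul_of_nonneg_left h6 (by positivity)
            linarith
    calc ∑ k ∈ Finset.Icc 1 (Nat.log 2 N), ∑ p ∈ P, ((B k p).card : ℝ)
        ≤ ∑ _k ∈ Finset.Icc 1 (Nat.log 2 N), ((T : ℝ) * (η / y) + Nat.sqrt N) :=
          Finset.sum_le_sum h3
      _ = _ := by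
          rw [Finset.sum_const, nsmul_eq_mul, Nat.card_Icc]
          simp
  -- the good ones
  have hA3 : 3 ≤ A y := Nat.le_of_dvd hA (dvd_A Nat.prime_three (by norm_num) hy3)
  have hinj : Set.InjOn (fun t => 2 * A y * t + A y) ((Finset.range T) \ Bad : Finset ℕ) := by
    intro a _ b _ hab
    have : 2 * A y * a = 2 * A y * b := by
      have : 2 * A y * a + A y = 2 * A y * b + A y := hab
      omega
    exact Nat.eq_of_mul_eq_mul_left (by positivity) this
  have hsub : ((Finset.range T \ Bad).image (fun t => 2 * A y * t + A y) : Finset ℕ) ⊆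
      ((Finset.range (N + 1)).filter fun n => 3 ≤ n ∧ Good n) := by
    intro n hn
    rw [Finset.mem_image] at hn
    obtain ⟨t, ht, rfl⟩ := hn
    rw [Finset.mem_sdiff, Finset.mem_range] at ht
    obtain ⟨ht1, ht2⟩ := ht
    have hle : 2 * A y * t + A y ≤ N := by
      have h1 : 2 * A y * (t + 1) ≤ 2 * A y * T := Nat.mul_le_mul_left _ ht1
      have h2 : 2 * A y * T ≤ N := Nat.mul_div_le N (2 * A y)
      nlinarith
    rw [Finset.mem_filter, Finset.mem_range]
    refine ⟨by omega, by nlinarith [Nat.zero_le (2 * A y * t)], good_of hle ?_⟩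
    intro k hk p hp hmod
    apply ht2
    rw [hBad, Finset.mem_biUnion]
    refine ⟨k, hk, ?_⟩
    rw [Finset.mem_biUnion]
    refine ⟨p, hp, ?_⟩
    rw [hB]
    exact Finset.mem_filter.2 ⟨Finset.mem_range.2 ht1, hmod⟩
  have hset : {n : ℕ | n ≤ N ∧ 3 ≤ n ∧ Good n} =
      ((Finset.range (N + 1)).filter fun n => 3 ≤ n ∧ Good n : Finset ℕ) := by
    ext n
    simp only [Set.mem_ofPred_eq, Finset.coe_filter, Finset.mem_range]
    constructor
    · rintro ⟨a, b⟩; exact ⟨by omega, b⟩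
    · rintro ⟨a, b⟩; exact ⟨by omega, b⟩
  rw [hset, Set.ncard_coe_finset]
  have h1 := Finset.card_le_card hsub
  rw [Finset.card_image_of_injOn hinj] at h1
  have h2 : T ≤ (Finset.range T \ Bad).card + Bad.card := by
    have := Finset.card_le_card_sdiff_add_card (s := Finset.range T) (t := Bad)
    rwa [Finset.card_range] at this
  have h3 : (T : ℝ) ≤ ((Finset.range (N + 1)).filter fun n => 3 ≤ n ∧ Good n).card + Bad.card := by
    exact_mod_cast h2.trans (Nat.add_le_add_right h1 _)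
  linarith

/-- `4 ^ (K / q)` is a small power of `2 ^ K` -/
lemma A_small {N q y : ℕ} (hq : 0 < q) (hN : N ≠ 0) (hy : y = Nat.log 2 N / q) :
    (A y : ℝ) ≤ (N : ℝ) ^ ((2 : ℝ) / q) := by
  have h1 : A y ^ q ≤ N ^ 2 := by
    calc A y ^ q ≤ (4 ^ y) ^ q := Nat.pow_le_pow_left (A_le y) q
      _ = 4 ^ (y * q) := by rw [← pow_mul]
      _ ≤ 4 ^ (Nat.log 2 N) := by
          apply Nat.pow_le_pow_right (by norm_num)
          rw [hy]
          exact Nat.div_mul_le_self _ _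
      _ = (2 ^ (Nat.log 2 N)) ^ 2 := by
          rw [← pow_mul, mul_comm, pow_mul]
          norm_num
      _ ≤ N ^ 2 := Nat.pow_le_pow_left (Nat.pow_log_le_self 2 hN) 2
  have h2 : ((A y : ℝ)) ^ q ≤ (N : ℝ) ^ 2 := by exact_mod_cast h1
  have hq' : (0 : ℝ) < q := by exact_mod_cast hq
  have hA0 : (0 : ℝ) ≤ A y := by positivity
  calc (A y : ℝ) = ((A y : ℝ) ^ q) ^ ((1 : ℝ) / q) := by
        rw [← Real.rpow_natCast, ← Real.rpow_mul hA0, mul_one_div_cancel hq'.ne', Real.rpow_one]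
    _ ≤ ((N : ℝ) ^ 2) ^ ((1 : ℝ) / q) := by gcongr
    _ = (N : ℝ) ^ ((2 : ℝ) / q) := by
        rw [← Real.rpow_natCast, ← Real.rpow_mul (by positivity)]
        congr 1
        push_cast
        ring

lemma main_eventually {ε : ℝ} (hε : 0 < ε) : ∀ᶠ N : ℕ in atTop,
    (N : ℝ) ^ (1 - ε) ≤ ({n : ℕ | n ≤ N ∧ 3 ≤ n ∧ Good n}.ncard : ℝ) := by
  obtain ⟨q, hq⟩ := exists_nat_gt (max 8 (4 / ε))
  have hq8 : (8 : ℝ) < q := (le_max_left _ _).trans_lt hq
  have hqε : 4 / ε < q := (le_max_right _ _).trans_lt hq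
  have hq0 : (0 : ℝ) < q := by linarith
  have hqn : 0 < q := by exact_mod_cast hq0
  have hε2 : 4 / (q : ℝ) < ε := by
    rw [div_lt_iff₀ hq0]
    rw [div_lt_iff₀ hε] at hqε
    linarith
  obtain ⟨y₀, hy₀, htail⟩ := tail (η := 1 / (8 * q)) (by positivity)
  -- eventual facts
  have e1 : ∀ᶠ N : ℕ in atTop, 2 ^ (q * (y₀ + 3)) ≤ N := eventually_ge_atTop _
  have hcast : Tendsto (fun N : ℕ => (N : ℝ)) atTop atTop := tendsto_natCast_atTop_atTop
  have e2 : ∀ᶠ x : ℝ in atTop, 8 ≤ x ^ ((2 : ℝ) / q) :=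
    (tendsto_rpow_atTop (by positivity)).eventually_ge_atTop 8
  have e3 : ∀ᶠ x : ℝ in atTop, 64 * (Real.log x * x ^ ((1 : ℝ) / 2)) + 64 ≤ x ^ ((3 : ℝ) / 4) := by
    have h1 : (fun x : ℝ => Real.log x * x ^ ((1 : ℝ) / 2)) =o[atTop]
        fun x => x ^ ((1 : ℝ) / 4) * x ^ ((1 : ℝ) / 2) :=
      (isLittleO_log_rpow_atTop (by norm_num)).mul_isBigO (Asymptotics.isBigO_refl _ _)
    have h2 := h1.bound (c := 1 / 128) (by norm_num)
    have h3 : ∀ᶠ x : ℝ in atTop, 128 ≤ x ^ ((3 : ℝ) / 4) :=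
      (tendsto_rpow_atTop (by norm_num)).eventually_ge_atTop 128
    filter_upwards [h2, h3, eventually_gt_atTop (1 : ℝ)] with x a b c
    have hx0 : (0 : ℝ) < x := by linarith
    rw [← Real.rpow_add hx0] at a
    norm_num at a
    rw [abs_of_nonneg (Real.log_nonneg c.le), abs_of_nonneg (by positivity),
      abs_of_nonneg (by positivity)] at a
    norm_num at a b ⊢
    linarith
  filter_upwards [e1, hcast.eventually e2, hcast.eventually e3, eventually_ge_atTop 2]
    with N hN1 hN2 hN3 hN4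
  have hN0 : N ≠ 0 := by omega
  have hNr : (1 : ℝ) < N := by exact_mod_cast (by omega : 1 < N)
  have hNp : (0 : ℝ) < N := by linarith
  set K := Nat.log 2 N with hK
  set y := K / q with hy
  have hKbig : q * (y₀ + 3) ≤ K := Nat.le_log_of_pow_le (by norm_num) hN1
  have hybig : y₀ + 3 ≤ y := by
    rw [hy, Nat.le_div_iff_mul_le hqn]
    linarith [mul_comm q (y₀ + 3)]
  have hyr : (0 : ℝ) < y := by exact_mod_cast (by omega : 0 < y)
  have hcount := count_good (y := y) (N := N) (by omega) (η := 1 / (8 * q))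
    (fun X => htail y (by omega) X)
  refine le_trans ?_ hcount
  set T := N / (2 * A y) with hT
  -- lower bound for `T`
  have hA := A_small hqn hN0 hy
  have hApos : (0 : ℝ) < A y := by exact_mod_cast A_pos y
  set u : ℝ := (N : ℝ) ^ (1 - (2 : ℝ) / q) with hu
  have hu34 : (N : ℝ) ^ ((3 : ℝ) / 4) ≤ u := by
    apply Real.rpow_le_rpow_of_exponent_le hNr.le
    have : (2 : ℝ) / q ≤ 1 / 4 := by
      rw [div_le_iff₀ hq0]; linarith
    linarith
  have hTlow : u / 2 - 1 ≤ (T : ℝ) := by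
    have h1 : (N : ℝ) / (2 * A y) - 1 ≤ (T : ℝ) := by
      have h2 : (N : ℝ) / ((2 * A y : ℕ) : ℝ) < T + 1 := by
        rw [hT]
        exact Nat.lt_floor_add_one _ |>.trans_le (by
          rw [Nat.floor_div_natCast, Nat.floor_natCast])
      push_cast at h2
      linarith
    have h3 : u / 2 ≤ (N : ℝ) / (2 * A y) := by
      rw [div_le_div_iff₀ (by norm_num) (by positivity)]
      have h4 : u * A y ≤ N := by
        calc u * A y ≤ u * (N : ℝ) ^ ((2 : ℝ) / q) := by gcongr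
          _ = (N : ℝ) ^ (1 - (2 : ℝ) / q + 2 / q) := by
              rw [hu, ← Real.rpow_add hNp]
          _ = N := by rw [sub_add_cancel, Real.rpow_one]
      linarith
    linarith
  -- `K / y ≤ 2 q`
  have hKy : (K : ℝ) * (1 / (8 * q) / y) ≤ 1 / 4 := by
    have h1 : K < q * (y + 1) := by
      have := Nat.lt_mul_div_succ K hqn
      rwa [← hy] at this
    have h2 : (K : ℝ) ≤ 2 * q * y := by
      have h3 : K ≤ 2 * q * y := by nlinarith
      exact_mod_cast h3
    calc (K : ℝ) * (1 / (8 * q) / y) ≤ (2 * q * y) * (1 / (8 * q) / y) := by gcongr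
      _ = 1 / 4 := by field_simp; norm_num
  have hKlog : (K : ℝ) ≤ 2 * Real.log N := by
    have h1 : (2 : ℝ) ^ K ≤ N := by exact_mod_cast Nat.pow_log_le_self 2 hN0
    have h2 := Real.log_le_log (by positivity) h1
    rw [Real.log_pow] at h2
    have h3 := Real.log_two_gt_d9
    have : (0 : ℝ) ≤ K := by positivity
    nlinarith
  have hsqrt : (Nat.sqrt N : ℝ) ≤ (N : ℝ) ^ ((1 : ℝ) / 2) := by
    rw [← Real.sqrt_eq_rpow]
    exact Real.nat_sqrt_le_real_sqrt
  have hKs : (K : ℝ) * Nat.sqrt N ≤ u / 32 := by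
    have h1 : (K : ℝ) * Nat.sqrt N ≤ (2 * Real.log N) * (N : ℝ) ^ ((1 : ℝ) / 2) := by
      have : (0 : ℝ) ≤ Nat.sqrt N := by positivity
      have h0 : 0 ≤ Real.log N := Real.log_nonneg hNr.le
      gcongr
    have h2 : 64 * (Real.log N * (N : ℝ) ^ ((1 : ℝ) / 2)) ≤ u := by linarith
    linarith
  have hε3 : (N : ℝ) ^ (1 - ε) ≤ u / 8 := by
    have h1 : 8 * (N : ℝ) ^ (1 - ε) ≤ (N : ℝ) ^ ((2 : ℝ) / q) * (N : ℝ) ^ (1 - ε) := by gcongr
    have h2 : (N : ℝ) ^ ((2 : ℝ) / q) * (N : ℝ) ^ (1 - ε) ≤ u := by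
      rw [← Real.rpow_add hNp, hu]
      apply Real.rpow_le_rpow_of_exponent_le hNr.le
      have : (4 : ℝ) / q = 2 / q + 2 / q := by ring
      linarith
    linarith
  have hu64 : 64 ≤ u := by
    have h0 : 0 ≤ Real.log N := Real.log_nonneg hNr.le
    have h1 : 0 ≤ 64 * (Real.log N * (N : ℝ) ^ ((1 : ℝ) / 2)) := by positivity
    linarith
  have hfin : (T : ℝ) * (3 / 4) - u / 32 ≤
      (T : ℝ) - K * (T * (1 / (8 * q) / y) + Nat.sqrt N) := by
    have h1 : (T : ℝ) * ((K : ℝ) * (1 / (8 * q) / y)) ≤ T * (1 / 4) := by gcongr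
    nlinarith
  refine le_trans ?_ hfin
  linarith

/-- **There are infinitely many `n` such that `n - 2 ^ k` is squarefree for every `k ≥ 1` with
`2 ^ k < n`.**  Moreover, for every `ε > 0` there are at least `N ^ (1 - ε)` such integers `n` with
`3 ≤ n ≤ N`, for all large `N`. -/
theorem result :
    {n : ℕ | 3 ≤ n ∧ Good n}.Infinite ∧
      ∀ ε : ℝ, 0 < ε → ∀ᶠ N : ℕ in atTop,
        (N : ℝ) ^ (1 - ε) ≤ ({n : ℕ | n ≤ N ∧ 3 ≤ n ∧ Good n}.ncard : ℝ) := by
  refine ⟨?_, fun ε hε => main_eventually hε⟩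
  intro hfin
  have h1 := main_eventually (ε := 1 / 2) (by norm_num)
  have h2 : ∀ᶠ N : ℕ in atTop, ({n : ℕ | 3 ≤ n ∧ Good n}.ncard : ℝ) + 1 ≤
      (N : ℝ) ^ (1 - (1 / 2 : ℝ)) := by
    have := (tendsto_rpow_atTop (y := 1 - (1 / 2 : ℝ)) (by norm_num)).comp
      (tendsto_natCast_atTop_atTop (R := ℝ))
    exact this.eventually_ge_atTop _
  obtain ⟨N, hN1, hN2⟩ := (h1.and h2).exists
  have h3 : {n : ℕ | n ≤ N ∧ 3 ≤ n ∧ Good n}.ncard ≤ {n : ℕ | 3 ≤ n ∧ Good n}.ncard :=
    Set.ncard_le_ncard (fun n hn => hn.2) hfin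
  have h4 : ({n : ℕ | n ≤ N ∧ 3 ≤ n ∧ Good n}.ncard : ℝ) ≤ {n : ℕ | 3 ≤ n ∧ Good n}.ncard := by
    exact_mod_cast h3
  linarith

end Pool.Agent.Results.MP_fcd74d_nt.PowersOfTwo
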